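import Pool.Agent.H266_hanf.Final

/-! Order-invariant first-order logic is not Hanf-local (MP_6f75b7_lc, Q1, negated form).

There is one order-invariant first-order sentence whose graph property is not Hanf-local for any radius:
for each radius `d` there are two finite simple coloured graphs with a bijection of the vertices that
preserves the isomorphism types of the pointed `d`-neighbourhoods, one having the property and the other
not having it.

Idea of the proof. The base graph has the square matrices over a finite field of order `2 ^ (4 * m)`,
modulo the addition of the identity matrix, as its vertices; the classes of `x` and `y` are adjacent when
`x - y` or `x - y + 1` has rank one. The choice of the alternative is a two-valued cocycle that is trivial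
on balls and not trivial on the whole graph, and every cocycle that is trivial on more than half of the
vertices is trivial. The base graph is an expander with closed neighbourhoods so large that for every
linear order more than half of the vertices have neighbourhoods pairwise interleaving often enough to
compare, with the help of the order, the names of these vertices. Each vertex of the final structure
carries its name, all binary relations on the names and the two lifts along the cocycle; the sentence uses
the order to read off the names and the smaller lift over each vertex and to test whether the cocycle is
trivial. Its first part checks that the structure is locally of this form, which makes it
order-invariant on all finite structures. -/

open Pool.Agent.H266_hanf in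
/-- One order-invariant first-order sentence defines a graph property that is not Hanf-local for any
radius, even on simple graphs. -/
theorem Pool.Agent.Results.MP_6f75b7_lc.NotHanfLocal.result :
    ∃ (k : ℕ) (φ : (OGLang k).Sentence), OrderInvariant φ ∧
      ∀ d : ℕ, ∃ G H : ColGraph k, IsSimple G ∧ IsSimple H ∧ HanfEquiv d G H ∧
        GraphProp φ G ∧ ¬ GraphProp φ H :=
  ⟨8, main⟩
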